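import Mathlib
import Pool.Agent.H.MP_0cd67c_ag.F

set_option autoImplicit false

namespace Pool.Agent.H.MP_31565c_an
open Polynomial Finset Pool.Agent.H.MP_0cd67c_ag

noncomputable section

lemma sv_zero (n : ℕ) : ∀ P : ℝ[X], P.support.card = n → (∀ k, 0 ≤ P.coeff k) →
    P.signVariations = 0 := by
  induction n with
  | zero =>
    intro P h _
    rw [Finset.card_eq_zero, support_eq_empty] at h
    rw [h, signVariations_zero]
  | succ n ih =>
    intro P h hc
    have p0 : P ≠ 0 := by rintro rfl; simp at h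
    have h2 : ∀ k, 0 ≤ P.eraseLead.coeff k := fun k => by
      rw [eraseLead_coeff]; split_ifs
      · exact le_rfl
      · exact hc k
    rw [signVariations_eq_eraseLead_add_ite p0, ih _ (card_support_eraseLead' h) h2, if_neg]
    have h3 : 0 < P.leadingCoeff := lt_of_le_of_ne (hc _) (leadingCoeff_ne_zero.mpr p0).symm
    rw [sign_pos h3]
    rcases (h2 P.eraseLead.natDegree).eq_or_lt with h4 | h4
    · rw [leadingCoeff, ← h4]; simp
    · rw [leadingCoeff, sign_pos h4]; decide

lemma one_pos (P : ℝ[X]) (e : ℝ) (he : e ≠ 0) (h : ∀ k, k ≠ P.natDegree → 0 ≤ e * P.coeff k) :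
    P.roots.countP (0 < ·) ≤ 1 := by
  refine (roots_countP_pos_le_signVariations P).trans
    ((signVariations_le_eraseLead_succ P).trans ?_)
  rw [← signVariations_C_mul _ he, sv_zero _ _ rfl fun k => ?_]
  rw [coeff_C_mul, eraseLead_coeff]
  split_ifs with hk
  · simp
  · exact h k hk

lemma PM_one (s : Multiset ℝ) : (PM s).coeff 0 = 1 ∧ (PM s).coeff 1 = (s.sum : ℝ) ∧
    2 * (PM s).coeff 2 = ((s.sum ^ 2 - (s.map fun x => x ^ 2).sum : ℝ) : ℂ) := by
  induction s using Multiset.induction_on with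
  | empty => simp [PM, coeff_one]
  | cons a s ih =>
    obtain ⟨h0, h1, h2⟩ := ih
    refine ⟨by rw [PM_cons, mul_coeff_zero, h0]; simp, ?_, ?_⟩
    · rw [PM_cons, lin_coeff, h0, h1, Multiset.sum_cons]; push_cast; ring
    · rw [PM_cons, lin_coeff, h1, Multiset.sum_cons, Multiset.map_cons, Multiset.sum_cons, mul_add,
        h2]; push_cast; ring

/-- strict Laguerre inequality at the top -/
lemma top_gap (f : ℝ[X]) (hf : f.Splits) (N : ℕ) (hN : f.natDegree = N + 2)
    (h1 : f.coeff (N + 1) = 0) (h2 : 0 ≤ f.coeff (N + 2) * f.coeff N) (k : ℕ) (hk : k < N + 2) :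
    f.coeff k = 0 := by
  have f0 : f.leadingCoeff ≠ 0 := leadingCoeff_ne_zero.mpr (by rintro rfl; simp at hN)
  have hs := sum_zero f hf (N + 2) (by omega) hN h1
  obtain ⟨s, hs'⟩ : ∃ s, s = f.roots.map fun x => x * (-1) := ⟨_, rfl⟩
  have e := refl_split f hf (N + 2) hN.le
  rw [hN, Nat.sub_self, pow_zero, one_mul, ← hs'] at e
  have s0 : s.sum = 0 := by rw [hs', Multiset.sum_map_mul_right]; simp [hs]
  have e2 := e 2 (by omega)
  have e3 := (PM_one s).2.2
  have e4 : 2 * f.coeff N = f.leadingCoeff * (s.sum ^ 2 - (s.map fun x => x ^ 2).sum) := by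
    have : ((2 * f.coeff N : ℝ) : ℂ)
        = ((f.leadingCoeff * (s.sum ^ 2 - (s.map fun x => x ^ 2).sum) : ℝ) : ℂ) := by
      rw [Complex.ofReal_mul, Complex.ofReal_mul, ← e3, show N = N + 2 - 2 from rfl, e2]
      push_cast; ring
    exact_mod_cast this
  rw [← hN, ← leadingCoeff] at h2
  have q0 : 0 ≤ (s.map fun x => x ^ 2).sum :=
    Multiset.sum_nonneg fun y hy => by
      obtain ⟨x, _, rfl⟩ := Multiset.mem_map.mp hy; positivity
  have q1 : (s.map fun x => x ^ 2).sum = 0 := by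
    have l2 : 0 < f.leadingCoeff ^ 2 := by positivity
    rw [s0] at e4
    by_contra hh
    have := mul_pos l2 (lt_of_le_of_ne q0 (Ne.symm hh))
    have e5 : 2 * (f.leadingCoeff * f.coeff N)
        = -(f.leadingCoeff ^ 2 * (s.map fun x => x ^ 2).sum) := by
      linear_combination f.leadingCoeff * e4
    linarith
  have z : ∀ x ∈ s, x = 0 := fun x hx => by
    have := Multiset.single_le_sum (s := s.map fun x => x ^ 2) (fun y hy => by
      obtain ⟨x, _, rfl⟩ := Multiset.mem_map.mp hy; positivity) (x ^ 2) (Multiset.mem_map_of_mem _ hx)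
    rw [q1] at this
    exact pow_eq_zero_iff (two_ne_zero) |>.mp (le_antisymm this (sq_nonneg x))
  have p1 : PM s = 1 := by
    rw [PM]
    refine Multiset.prod_eq_one fun y hy => ?_
    obtain ⟨x, hx, rfl⟩ := Multiset.mem_map.mp hy
    simp [z x hx]
  have := e (N + 2 - k) (by omega)
  rw [p1, coeff_one, if_neg (by omega), mul_zero, show N + 2 - (N + 2 - k) = k by omega] at this
  exact_mod_cast this

lemma quad (a b : ℝ) (h : (C a * X ^ 2 - C b : ℝ[X]).Splits) : 0 ≤ a * b := by
  by_cases ha : a = 0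
  · simp [ha]
  have d : (C a * X ^ 2 - C b : ℝ[X]).degree = 2 := by compute_degree!
  obtain ⟨x, hx⟩ := h.exists_eval_eq_zero (by rw [d]; norm_num)
  simp only [eval_sub, eval_mul, eval_C, eval_pow, eval_X] at hx
  have : a * b = (a * x) ^ 2 := by linear_combination (-a) * hx
  rw [this]; positivity

lemma pattern (m : ℕ) (l : ℕ → ℝ) (h2 : ∀ k, k + 2 ≤ m → 0 ≤ l (k + 2) * l k)
    (hg : ∀ k, k + 2 ≤ m → l (k + 2) ≠ 0 → l (k + 1) = 0 → ∀ j ≤ k, l j = 0) :
    ∃ e s : ℝ, e ≠ 0 ∧ s * s = 1 ∧ ∀ k ≤ m, 0 ≤ e * (l k * s ^ k) := by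
  induction m with
  | zero =>
    by_cases h : l 0 = 0
    · exact ⟨1, 1, one_ne_zero, by ring, fun k hk => by simp [Nat.le_zero.mp hk, h]⟩
    · exact ⟨l 0, 1, h, by ring, fun k hk => by simp [Nat.le_zero.mp hk, mul_self_nonneg]⟩
  | succ m ih =>
    by_cases hz : l (m + 1) = 0
    · obtain ⟨e, s, h1, h3, h4⟩ := ih (fun k hk => h2 k (by omega)) (fun k hk => hg k (by omega))
      refine ⟨e, s, h1, h3, fun k hk => ?_⟩
      rcases Nat.lt_or_eq_of_le hk with h | h
      · exact h4 k (by omega)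
      · rw [h, hz]; simp
    obtain ⟨s, hs, hs2⟩ : ∃ s : ℝ, s * s = 1 ∧ 0 ≤ l (m + 1) * l m * s := by
      rcases le_total 0 (l (m + 1) * l m) with h | h
      · exact ⟨1, by ring, by simpa using h⟩
      · exact ⟨-1, by ring, by simpa using h⟩
    have s0 : s ≠ 0 := by rintro rfl; simp at hs
    have sp : ∀ k, s ^ k * s ^ k = 1 := fun k => by rw [← mul_pow, hs, one_pow]
    obtain ⟨e, he⟩ : ∃ e, e = l (m + 1) * s ^ (m + 1) := ⟨_, rfl⟩
    have e0 : e ≠ 0 := he ▸ mul_ne_zero hz (pow_ne_zero _ s0)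
    have key : ∀ i k, k + i = m → 0 ≤ e * (l k * s ^ k) ∧ 0 ≤ e * (l (k + 1) * s ^ (k + 1)) ∧
        (l (k + 1) = 0 → ∀ j ≤ k, l j = 0) := by
      intro i
      induction i with
      | zero =>
        intro k hk
        rw [add_zero] at hk
        subst hk
        refine ⟨?_, by rw [← he]; exact mul_self_nonneg e, fun h => absurd h hz⟩
        have : e * (l k * s ^ k) = l (k + 1) * l k * s * (s ^ k * s ^ k) := by rw [he]; ring
        rw [this, sp, mul_one]; exact hs2
      | succ i ih2 =>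
        intro k hk
        obtain ⟨a1, a2, a3⟩ := ih2 (k + 1) (by omega)
        by_cases c : l (k + 1 + 1) = 0
        · have z := a3 c
          exact ⟨by rw [z k (by omega)]; simp, a1, fun _ j hj => z j (by omega)⟩
        refine ⟨?_, a1, hg k (by omega) c⟩
        have b1 := h2 k (by omega)
        have b2 : 0 < e * (l (k + 1 + 1) * s ^ (k + 1 + 1)) :=
          lt_of_le_of_ne a2 (mul_ne_zero e0 (mul_ne_zero c (pow_ne_zero _ s0))).symm
        have b3 : e * (l (k + 1 + 1) * s ^ (k + 1 + 1)) * (e * (l k * s ^ k))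
            = e ^ 2 * (l (k + 2) * l k) * ((s * s) * (s ^ k * s ^ k)) := by ring
        rw [hs, sp, mul_one, mul_one] at b3
        exact nonneg_of_mul_nonneg_right (by rw [b3]; positivity) b2 |> fun h => h
    refine ⟨e, s, e0, hs, fun k hk => ?_⟩
    rcases Nat.lt_or_eq_of_le hk with h | h
    · exact (key (m - k) k (by omega)).1
    · rw [h]; exact (key 0 m rfl).2.1

theorem main (d : ℕ) (hd : 2 ≤ d) (l : ℕ → ℝ) (T : ℝ[X] →ₗ[ℝ] ℝ[X])
    (hT : ∀ k, k ≤ d → k ≠ d - 1 → T (X ^ k) = C (l k) * X ^ k) (hl : l d ≠ 0)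
    (h : ℝ[X]) (hh : h = T ((X - 1) ^ (d - 1) * (X + C ((d : ℝ) - 1)))) :
    (∀ p : ℝ[X], p.natDegree ≤ d → p.coeff (d - 1) = 0 → p.Splits → (T p).Splits) ↔
      (h.Splits ∧ (d - 1 ≤ (h.roots.filter fun x => 0 ≤ x).card ∨
        d - 1 ≤ (h.roots.filter fun x => x ≤ 0).card)) := by
  refine ⟨fun hp => ?_, fun hc p p1 p2 p3 => (MP_0cd67c_ag.main d d (by omega) hd
    (fun i => l (d - i)) T (fun i hi _ h1 => hT _ (by omega) (by omega))
    (fun i h1 h2 => by omega) h hh hc.1 hc.2 p p1 p2 p3).2.2⟩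
  have TC : ∀ p : ℝ[X], p.natDegree ≤ d → p.coeff (d - 1) = 0 → ∀ j,
      (T p).coeff j = l j * p.coeff j := by
    intro p p1 p2 j
    have : T p = ∑ k ∈ range (d + 1), C (l k * p.coeff k) * X ^ k := by
      conv_lhs => rw [p.as_sum_range' (d + 1) (by omega), map_sum]
      refine Finset.sum_congr rfl fun k hk => ?_
      rw [← C_mul_X_pow_eq_monomial, ← smul_eq_C_mul, map_smul, smul_eq_C_mul]
      by_cases e : k = d - 1
      · rw [e, p2]; simp
      · rw [hT k (Nat.lt_succ_iff.mp (Finset.mem_range.mp hk)) e, map_mul]; ring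
    rw [this, finsetSum_coeff]
    simp only [coeff_C_mul_X_pow, Finset.sum_ite_eq, Finset.mem_range]
    split_ifs with hj
    · rfl
    · rw [coeff_eq_zero_of_natDegree_lt (by omega), mul_zero]
  obtain ⟨m, rfl⟩ : ∃ m, d = m + 2 := ⟨d - 2, by omega⟩
  obtain ⟨g0, hg0⟩ : ∃ g0 : ℝ[X], g0 = (X - 1) ^ (m + 1) * (X + C ((m + 1 : ℕ) : ℝ)) := ⟨_, rfl⟩
  have hh' : h = T g0 := by
    rw [hh, hg0]; congr 3
    congr 1; push_cast; ring
  have gc : ∀ i, i ≤ m + 2 → g0.coeff (m + 2 - i) = ((m + 2).choose i : ℝ) * (1 - i) * (-1) ^ i :=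
    fun i hi => by
      have := g0_coeff (m + 1) i hi
      rw [← hg0, qq] at this
      exact_mod_cast this
  have g0d : g0.natDegree ≤ m + 2 := by rw [hg0]; compute_degree!
  have g01 : g0.coeff (m + 2 - 1) = 0 := by simpa using gc 1 (by omega)
  have hs : h.Splits := by
    rw [hh']
    refine hp g0 g0d g01 ?_
    rw [hg0]
    exact ((Splits.X_sub_C (1:ℝ)).pow _).mul (Splits.X_add_C _)
  refine ⟨hs, ?_⟩
  have a2 : ∀ k, k + 2 ≤ m → 0 ≤ l (k + 2) * l k := by
    intro k hk
    have e : (X ^ (k + 2) - X ^ k : ℝ[X]) = X ^ k * ((X - C 1) * (X + C 1)) := by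
      rw [map_one]; ring
    have dg : (X ^ (k + 2) - X ^ k : ℝ[X]).natDegree ≤ k + 2 := by compute_degree!
    have := hp (X ^ (k + 2) - X ^ k) (by omega) (coeff_eq_zero_of_natDegree_lt (by omega))
      (by rw [e]; exact (Splits.X_pow k).mul ((Splits.X_sub_C _).mul (Splits.X_add_C _)))
    rw [map_sub, hT _ (by omega) (by omega), hT _ (by omega) (by omega),
      show C (l (k + 2)) * X ^ (k + 2) - C (l k) * X ^ k
        = X ^ k * (C (l (k + 2)) * X ^ 2 - C (l k) : ℝ[X]) by ring,
      splits_mul_iff_right (pow_ne_zero _ X_ne_zero) (Splits.X_pow k)] at this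
    exact quad _ _ this
  obtain ⟨e, s, e0, ss, hpat⟩ := pattern m l a2 (fun k hk c2 c1 j hj => by
    have dg : ((1 + X : ℝ[X]) ^ (k + 2)).natDegree ≤ k + 2 := by compute_degree!
    have z : ((1 + X : ℝ[X]) ^ (k + 2)).coeff (m + 2 - 1) = 0 :=
      coeff_eq_zero_of_natDegree_lt (by omega)
    have co := TC _ (by omega) z
    simp only [coeff_one_add_X_pow] at co
    have sp := hp _ (by omega) z (by
      rw [add_comm, ← map_one C]; exact (Splits.X_add_C _).pow _)
    have nd : (T ((1 + X : ℝ[X]) ^ (k + 2))).natDegree = k + 2 := by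
      refine natDegree_eq_of_le_of_coeff_ne_zero ?_ (by rw [co]; simpa using c2)
      refine natDegree_le_iff_coeff_eq_zero.mpr fun N hN => ?_
      rw [co, Nat.choose_eq_zero_of_lt hN]; simp
    have := top_gap _ sp k nd (by rw [co, c1, zero_mul]) (by
      rw [co, co, Nat.choose_self, Nat.cast_one, mul_one, ← mul_assoc]
      exact mul_nonneg (a2 k hk) (Nat.cast_nonneg _)) j (by omega)
    rw [co] at this
    exact (mul_eq_zero.mp this).resolve_right
      (by exact_mod_cast (Nat.choose_pos (by omega)).ne'))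
  have hc := TC g0 g0d g01
  rw [← hh'] at hc
  have hdeg : h.natDegree = m + 2 := by
    refine natDegree_eq_of_le_of_coeff_ne_zero ?_ ?_
    · refine natDegree_le_iff_coeff_eq_zero.mpr fun N hN => ?_
      rw [hc, coeff_eq_zero_of_natDegree_lt (by omega), mul_zero]
    · have := gc 0 (by omega)
      rw [hc, show m + 2 = m + 2 - 0 from rfl, this]; simpa using hl
  have s0 : -s ≠ 0 := by rw [neg_ne_zero]; rintro rfl; simp at ss
  have cd : (h.comp (C (-s) * X)).natDegree = m + 2 := by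
    rw [natDegree_comp, natDegree_C_mul_X _ s0, hdeg, mul_one]
  have one := one_pos (h.comp (C (-s) * X)) (-e * (-1) ^ m)
    (mul_ne_zero (neg_ne_zero.mpr e0) (pow_ne_zero _ (by norm_num))) (fun k hk => by
      rw [cd] at hk
      rw [comp_C_mul_X_coeff, hc]
      by_cases k1 : k ≤ m
      · obtain ⟨i, rfl⟩ := Nat.exists_eq_add_of_le k1
        have := gc (i + 2) (by omega)
        rw [show k + i + 2 - (i + 2) = k by omega] at this
        rw [this, neg_pow s]
        have p1 : ((-1 : ℝ) ^ k) * (-1) ^ k = 1 := by rw [← mul_pow]; simp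
        have p2 : ((-1 : ℝ) ^ i) * (-1) ^ i = 1 := by rw [← mul_pow]; simp
        have p3 : -e * (-1) ^ (k + i) * (l k * (((k + i + 2).choose (i + 2) : ℝ) *
            (1 - ((i + 2 : ℕ) : ℝ)) * (-1) ^ (i + 2)) * ((-1) ^ k * s ^ k))
            = e * (l k * s ^ k) * (((k + i + 2).choose (i + 2) : ℝ) * (i + 1)) *
              ((((-1 : ℝ) ^ k) * (-1) ^ k) * (((-1 : ℝ) ^ i) * (-1) ^ i)) := by
          push_cast; ring
        rw [p3, p1, p2, mul_one, mul_one]
        exact mul_nonneg (hpat k k1) (by positivity)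
      · by_cases k2 : k = m + 1
        · rw [k2, show m + 1 = m + 2 - 1 from rfl, g01]; simp
        · rw [coeff_eq_zero_of_natDegree_lt (by omega)]; simp)
  have hcard := hs.natDegree_eq_card_roots
  rcases mul_self_eq_one_iff.mp ss with rfl | rfl
  · left
    rw [map_neg, map_one, neg_one_mul, roots_comp_neg_X, Multiset.countP_map] at one
    have := congrArg Multiset.card (Multiset.filter_add_not (fun x : ℝ => 0 ≤ x) h.roots)
    rw [Multiset.card_add] at this
    have e2 : (h.roots.filter fun x : ℝ => ¬ 0 ≤ x) = h.roots.filter fun x : ℝ => 0 < -x :=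
      Multiset.filter_congr fun x _ => by simp
    rw [e2] at this
    omega
  · right
    rw [neg_neg, map_one, one_mul, comp_X, Multiset.countP_eq_card_filter] at one
    have := congrArg Multiset.card (Multiset.filter_add_not (fun x : ℝ => x ≤ 0) h.roots)
    rw [Multiset.card_add] at this
    have e2 : (h.roots.filter fun x : ℝ => ¬ x ≤ 0) = h.roots.filter fun x : ℝ => 0 < x :=
      Multiset.filter_congr fun x _ => by simp
    rw [e2] at this
    omega

end

end Pool.Agent.H.MP_31565c_an
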